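import Pool.Agent.Helper284.LPFinal

/-!
# Non-real points of minimum modulus in the Mandelbrot set for pairs of linear maps

The infimum `ρ` of the moduli of the non-real points of `M` is attained, it is
`0.6356063903914554926920469612036720798123370965877869051184…` (58 digits), and every non-real
point of modulus `ρ` is within `10^(-59)` of one of the four points `±q*, ±conj q*` with
`q* = 0.37877707401718… + 0.51041494071533… i`.  The power series with coefficients in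
`{-1,0,1}` vanishing at a minimiser are determined by a first order optimality rule.
-/

set_option autoImplicit false

namespace Pool.Agent.Results.MP_5dd2d4_an.MinimumModulus

open Complex Pool.Agent.LinPair

/-- The attractor `A(q)` of the pair `z ↦ q z`, `z ↦ q z + 1`. -/
def attractor (q : ℂ) : Set ℂ :=
  {z | ∃ σ : ℕ → ℂ, (∀ k, σ k = 0 ∨ σ k = 1) ∧ z = ∑' k, σ k * q ^ k}

/-- The Mandelbrot set for pairs of linear maps. -/
def mandel : Set ℂ := {q | ‖q‖ < 1 ∧ IsConnected (attractor q)}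

/-- The infimum of the moduli of the non-real points of `mandel`. -/
noncomputable def rho : ℝ := sInf {r | ∃ q ∈ mandel, q.im ≠ 0 ∧ r = ‖q‖}

/-- The non-real points of minimum modulus. -/
def minimisers : Set ℂ := {q | q ∈ mandel ∧ q.im ≠ 0 ∧ ‖q‖ = rho}

/-- An explicit Gaussian rational. -/
noncomputable def qstar : ℂ :=
  ⟨378777074017180905751270553784999624437672467958834123086276 / 10 ^ 60,
    510414940715334451548668891643427241081803698880050844655317 / 10 ^ 60⟩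

/-- An explicit sequence of signs `1, -1, 1, 1, 1, -1, -1, -1, -1, 1, 1, 1, -1, -1, -1, …` (used for
`k ≤ 300`). -/
def signSeq (k : ℕ) : ℤ :=
  if Nat.testBit
    3620955661235874597639598531940717164945531386814671439396344544985627284307570336658329117 k
  then 1 else -1

theorem qstar_eq : qstar = q1 := by
  apply Complex.ext
  · rw [q1_re]; norm_num [qstar, X1, S1]
  · rw [q1_im]; norm_num [qstar, Y1, S1]

theorem signSeq_eq (k : ℕ) : signSeq k = sg k := rfl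

theorem mandel_ser {q : ℂ} (h : q ∈ mandel) : Ser q := ser_of_connected q h.1 h.2

theorem ser_mandel {q : ℂ} (h1 : ‖q‖ < 1) (h : Ser q) : q ∈ mandel :=
  ⟨h1, connected_of_ser q h1 h⟩

theorem rho_spec : ∃ q : ℂ, 0 ≤ q.re ∧ 0 < q.im ∧ ‖q‖ ≤ 6356063904 / 10 ^ 10 ∧ Ser q ∧
    ‖q‖ = rho ∧ ∀ w : ℂ, w.im ≠ 0 → ‖w‖ < 1 → Ser w → rho ≤ ‖w‖ := by
  obtain ⟨q, h1, h2, h3, h4, h5⟩ := exists_min
  have hlt : ‖q‖ < 1 := lt_of_le_of_lt h3 (by norm_num)
  have hleast : IsLeast {r | ∃ q ∈ mandel, q.im ≠ 0 ∧ r = ‖q‖} ‖q‖ := by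
    constructor
    · exact ⟨q, ser_mandel hlt h4, h2.ne', rfl⟩
    · rintro r ⟨w, hw, hwi, rfl⟩
      exact h5 w hwi hw.1 (mandel_ser hw)
  have he : rho = ‖q‖ := hleast.csInf_eq
  refine ⟨q, h1, h2, h3, h4, he.symm, ?_⟩
  rw [he]
  exact h5

theorem rho_le : rho ≤ 6356063904 / 10 ^ 10 := by
  obtain ⟨q, _, _, h3, _, h5, _⟩ := rho_spec
  rw [← h5]; exact h3

theorem quad_close {q : ℂ} (hre : 0 ≤ q.re) (him : 0 < q.im) (hn : ‖q‖ = rho) {a : ℕ → ℤ}
    (ha : ∀ k, a k = -1 ∨ a k = 0 ∨ a k = 1) (ha0 : a 0 = 1)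
    (h0 : ∑' k, (a k : ℂ) * q ^ k = 0) :
    Tgt a q ∧ ∀ w : ℂ, w.im ≠ 0 → ‖w‖ < 1 → Ser w → ‖q‖ ≤ ‖w‖ := by
  obtain ⟨q', _, _, _, _, _, h6⟩ := rho_spec
  refine ⟨tgt_of ha ha0 h0 hre him (by rw [hn]; exact rho_le), ?_⟩
  rw [hn]
  exact h6

theorem norm_conj_sub (q : ℂ) : ‖(starRingEnd ℂ) q - q1‖ = ‖q - (starRingEnd ℂ) q1‖ := by
  have h : (starRingEnd ℂ) q - q1 = (starRingEnd ℂ) (q - (starRingEnd ℂ) q1) := by
    rw [map_sub, Complex.conj_conj]
  rw [h, Complex.norm_conj]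

theorem norm_conj_add (q : ℂ) : ‖-(starRingEnd ℂ) q - q1‖ = ‖q + (starRingEnd ℂ) q1‖ := by
  have h : -(starRingEnd ℂ) q - q1 = -(starRingEnd ℂ) (q + (starRingEnd ℂ) q1) := by
    rw [map_add, Complex.conj_conj]; ring
  rw [h, norm_neg, Complex.norm_conj]

theorem norm_neg_sub' (q : ℂ) : ‖-q - q1‖ = ‖q + q1‖ := by
  have h : -q - q1 = -(q + q1) := by ring
  rw [h, norm_neg]

theorem tip_large {q : ℂ} (h : 1 - q + q ^ 2 + 2 * q ^ 3 = 0) (hi : q.im ≠ 0) :
    636 / 1000 < ‖q‖ := by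
  obtain ⟨x, y⟩ := q
  simp only at hi
  have hre := congrArg Complex.re h
  have him := congrArg Complex.im h
  simp [pow_succ] at hre him
  have e1 : 2 * y ^ 2 = 6 * x ^ 2 + 2 * x - 1 := by
    have : y * (6 * x ^ 2 + 2 * x - 1 - 2 * y ^ 2) = 0 := by linear_combination him
    rcases mul_eq_zero.mp this with h | h
    · exact absurd h hi
    · linarith
  have e2 : 32 * x ^ 3 + 16 * x ^ 2 - 2 * x - 3 = 0 := by
    linear_combination (-2) * hre - (6 * x + 1) * e1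
  have hx : 3668 / 10000 < x := by
    by_contra hcon
    push Not at hcon
    nlinarith [sq_nonneg (x + 4 / 10), sq_nonneg x, mul_nonneg (sub_nonneg.mpr hcon)
      (sq_nonneg (x + 4 / 10))]
  have hs : (636 / 1000 : ℝ) ^ 2 < ‖(⟨x, y⟩ : ℂ)‖ ^ 2 := by
    rw [Complex.sq_norm, Complex.normSq_apply]
    simp only
    nlinarith
  exact lt_of_pow_lt_pow_left₀ 2 (norm_nonneg _) hs

/-- **Non-real points of minimum modulus.** -/
theorem result :
    minimisers.Nonempty ∧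
    |rho - 635606390391455492692046961203672079812337096587786905118449 / 10 ^ 60| ≤ 1 / 10 ^ 58 ∧
    (∀ q ∈ minimisers, ‖q - qstar‖ ≤ 1 / 10 ^ 59 ∨ ‖q + qstar‖ ≤ 1 / 10 ^ 59 ∨
      ‖q - (starRingEnd ℂ) qstar‖ ≤ 1 / 10 ^ 59 ∨ ‖q + (starRingEnd ℂ) qstar‖ ≤ 1 / 10 ^ 59) ∧
    (∃ q ∈ minimisers, ‖q - qstar‖ ≤ 1 / 10 ^ 59 ∧ -q ∈ minimisers ∧
      (starRingEnd ℂ) q ∈ minimisers ∧ -(starRingEnd ℂ) q ∈ minimisers) ∧
    (∀ q ∈ minimisers, ‖q - qstar‖ ≤ 1 / 10 ^ 59 → ∀ a : ℕ → ℤ,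
      (∀ k, a k = -1 ∨ a k = 0 ∨ a k = 1) → a 0 = 1 → ∑' k, (a k : ℂ) * q ^ k = 0 →
      (∀ k ≤ 300, a k = signSeq k) ∧
      ∀ m : ℕ, 12 ≤ m →
        (3 * m * ‖q‖ ^ (2 * m) < ((starRingEnd ℂ) q * q ^ m /
          (∑' k : ℕ, ((k : ℂ) + 1) * (a (k + 1) : ℂ) * q ^ k)).re → a m = 1) ∧
        (((starRingEnd ℂ) q * q ^ m /
          (∑' k : ℕ, ((k : ℂ) + 1) * (a (k + 1) : ℂ) * q ^ k)).re <
            -(3 * m * ‖q‖ ^ (2 * m)) → a m = -1)) ∧
    (∀ q : ℂ, 1 - q + q ^ 2 + 2 * q ^ 3 = 0 → q.im ≠ 0 → rho < ‖q‖) := by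
  obtain ⟨q0, g1, g2, g3, g4, g5, g6⟩ := rho_spec
  have hq0lt : ‖q0‖ < 1 := lt_of_le_of_lt g3 (by norm_num)
  have hq0m : q0 ∈ minimisers := ⟨ser_mandel hq0lt g4, g2.ne', g5⟩
  obtain ⟨a0, ha0, ha00, h00⟩ := g4
  obtain ⟨ht, hmin⟩ := quad_close g1 g2 g5 ha0 ha00 h00
  have hclose := ht.close hmin
  have g4' : Ser q0 := ⟨a0, ha0, ha00, h00⟩
  refine ⟨⟨q0, hq0m⟩, ?_, ?_, ?_, ?_, ?_⟩
  · rw [← g5]
    have h1 : |‖q0‖ - ‖q1‖| ≤ 1 / 10 ^ 59 := (abs_norm_sub_norm_le q0 q1).trans hclose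
    have h2 := q1_norm_lower
    have h3 := q1_norm_upper
    have hR : (R1 : ℝ) = 635606390391455492692046961203672079812337096587786905118449 := by
      norm_num [R1]
    rw [hR] at h2 h3
    have e : ‖q0‖ - 635606390391455492692046961203672079812337096587786905118449 / 10 ^ 60 =
        (‖q0‖ - ‖q1‖) +
          (‖q1‖ - 635606390391455492692046961203672079812337096587786905118449 / 10 ^ 60) := by
      ring
    have h4 : |‖q1‖ - 635606390391455492692046961203672079812337096587786905118449 / 10 ^ 60| ≤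
        1 / 10 ^ 60 := by
      rw [abs_of_nonneg (by linarith)]
      have : (635606390391455492692046961203672079812337096587786905118449 + 1 : ℝ) / 10 ^ 60 =
        635606390391455492692046961203672079812337096587786905118449 / 10 ^ 60 + 1 / 10 ^ 60 := by
        ring
      linarith
    rw [e]
    refine (abs_add_le _ _).trans ((add_le_add h1 h4).trans ?_)
    norm_num
  · rintro q ⟨hq1, hq2, hq3⟩
    obtain ⟨q', hcase, h1, h2, h3, a, ha, ha0', h0⟩ := exists_sym hq2 (mandel_ser hq1)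
    obtain ⟨ht', hmin'⟩ := quad_close h1 h2 (by rw [h3]; exact hq3) ha ha0' h0
    have hc := ht'.close hmin'
    rw [qstar_eq]
    rcases hcase with rfl | rfl | rfl | rfl
    · left; exact hc
    · right; left; rw [← norm_neg_sub']; exact hc
    · right; right; left; rw [← norm_conj_sub]; exact hc
    · right; right; right; rw [← norm_conj_add]; exact hc
  · refine ⟨q0, hq0m, by rw [qstar_eq]; exact hclose, ?_, ?_, ?_⟩
    · exact ⟨ser_mandel (by rwa [norm_neg]) (Ser_neg g4'), by simpa using g2.ne',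
        by rw [norm_neg]; exact g5⟩
    · exact ⟨ser_mandel (by rwa [Complex.norm_conj]) (Ser_conj g4'), by simpa using g2.ne',
        by rw [Complex.norm_conj]; exact g5⟩
    · exact ⟨ser_mandel (by rwa [norm_neg, Complex.norm_conj]) (Ser_neg (Ser_conj g4')),
        by simpa using g2.ne', by rw [norm_neg, Complex.norm_conj]; exact g5⟩
  · intro q hq hc a ha ha0' h0
    rw [qstar_eq] at hc
    have hre : |(q - q1).re| ≤ 1 / 10 ^ 59 := (Complex.abs_re_le_norm _).trans hc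
    have him : |(q - q1).im| ≤ 1 / 10 ^ 59 := (Complex.abs_im_le_norm _).trans hc
    rw [Complex.sub_re, abs_le] at hre
    rw [Complex.sub_im, abs_le] at him
    have hq1re : (3 / 10 : ℝ) ≤ q1.re := by rw [q1_re]; norm_num [X1, S1]
    have hq1im : (5 / 10 : ℝ) ≤ q1.im := by rw [q1_im]; norm_num [Y1, S1]
    have hsmall : (1 : ℝ) / 10 ^ 59 ≤ 1 / 10 := by norm_num
    obtain ⟨ht', hmin'⟩ := quad_close (q := q) (by linarith) (by linarith) hq.2.2 ha ha0' h0
    refine ⟨fun k hk => ?_, fun m hm => ht'.sign hmin' m hm⟩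
    rw [signSeq_eq]
    exact ht'.coeff hmin' k hk
  · intro q h hi
    have h1 := tip_large h hi
    have h2 := rho_le
    have h3 : (6356063904 / 10 ^ 10 : ℝ) < 636 / 1000 := by norm_num
    linarith

end Pool.Agent.Results.MP_5dd2d4_an.MinimumModulus
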